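import Pool.Agent.CT.Final

/-!
# MP_45233e_ag, Q1 is false: `M_g^ct` in Hain's bundle `J_g` is not highly connected

For every `g ≥ 3` the orbifold universal cover `X g` of `M_g^ct` is not 2-connected.

## The space `X g` (definitions in `Pool/Agent/CT/Defs.lean`)

`V g = ℝ^{2g}` with the lattice `H = ℤ^{2g}` and the standard symplectic form `om`. A compatible complex
structure `J` (`IsCplx`) is a point of the Siegel space, `(V g / H, J, om)` is a principally polarised
abelian variety with marked first homology.

* `Piece J`: a compact connected Riemann surface `C = U / Γ` (`U` a simply connected open subset of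
  `ℂ`) with a holomorphic map to the torus `(V g / H, J)`; `carrier` is its image, `cur` the current
  of integration.
* `CTCurve J`: an orthogonal splitting of `H` into blocks `H_k` and for every block a compact
  Riemann surface `C_k` with a holomorphic map `f_k` to the torus, such that
  `H_1(C_k) = H_k` and `f_k` maps the fundamental class of `C_k` to the dual class of `om` on `H_k`
  (so `V g / H` is the product of the Jacobians of the `C_k` as a polarised abelian variety and
  `f_k` is the Abel-Jacobi map of `C_k` up to a translation), such that the union `Z` of the images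
  is connected. These `Z` are exactly the images under the Abel-Jacobi map of the stable curves of
  compact type with Jacobian `(V g / H, J, om)`, i.e. these curves with all rational components
  contracted (if `Z` is connected it is automatically a tree of the `C_k`, possibly with multiple
  points, since the translated `C_k` lie in different factors).
* `IsPt (J, Z, S, ξ)`: `Z` is such a curve, `S` its current of integration, and `ξ` is the integral of
  the forms `dx_i dx_j dx_k` over a smooth integral 3-chain `G` with boundary `Z` minus the
  reference cycle (the union of the coordinate tori): a lift of the Abel-Jacobi class of `Z` to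
  `Λ³ V`. Since `- Z₀ = Z₀`, the chain `G - (-1)_* G` has boundary `Z - Z^-` and volume `2 ξ`, so `2 ξ`
  is a lift of Hain's Abel-Jacobi class of the Ceresa cycle.
* `X g`: those `(J, Z, S, ξ)` with contraction of `ξ` with the symplectic form equal to `0`. A
  translation of the curve by `v` changes `ξ` by `v ∧ ω`, whose contraction is `(g - 1) v`; so the
  condition fixes the translation, and `ξ` becomes a lift to `L ⊗ ℝ = Λ³ V / (ω ∧ V)`.

The topology is that of `J`, of the Hausdorff distance, of the weak topology of currents and of `ξ`.
So `X g → {(J, Z)} / translations` (the Torelli cover of `M_g^ct`) has group `L = Λ³ H / (ω ∧ H)`,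
acting by `ξ ↦ ξ + l`; `X g → M_g^ct` has group `Γ_g / K_g`. `X g` is a connected component of the
preimage of `M_g^ct ⊂ J_g` in the universal cover `h_g × (L ⊗ ℝ)` of `J_g` by `(J, 2 ξ)`: the
closed injection of the problem file.

## The theorem

`X g` is nonempty, but not 2-connected (`π_0`, `π_1`, `π_2` do not all vanish at all base points),
for every `g ≥ 3`. Hence there is no sequence `n_g → ∞` as in the question, and `N = 2` works in the
negated form, for all `g ≥ 3`.

## The proof

If `X g` is 2-connected, the tori `ℝ² / ℤ² → X̃_g / Λ³ H` in the space of pairs `(J, Z)` define an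
alternating form `I` on `Λ³ H` with values in `H_2`, and the class swept by the curves is a map to
`H_4` of the torus. Unions of `g` translated elliptic curves (stars) give 2-parameter families for
which both are computed: `J(x ∧ w_A, y ∧ w_A) = θ(x, y, w_A)` and
`J(x ∧ (w_A + w_B), x_B ∧ w_A) = θ(x, x_B, w_A)` for all symplectic bases, and for `g ≥ 3` no such
alternating form exists. The class swept by a continuous family of curves is defined by a circle
cocycle of smoothed intersection numbers with triangles in a 4-dimensional quotient torus.
-/

set_option autoImplicit false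

noncomputable section

namespace Pool.Agent.Results.MP_45233e_ag.NotTwoConnected

open Pool.Agent.CT

/-- `X g` is nonempty -/
theorem nonempty_X (g : ℕ) (hg : 3 ≤ g) : Nonempty (X g) := by
  have he : SympBasis (fun a : Ix g => (Pi.single a 1 : Ix g → ℤ)) := fun a b => rfl
  obtain ⟨s, -, -, -⟩ := star_R1 (g := g) _ he ⟨0, by omega⟩ ⟨1, by omega⟩
    (by simp [Fin.ext_iff])
  obtain ⟨Q, -⟩ := star_family s
  obtain ⟨e⟩ := exists_homeo (g := g) (by omega)
  exact ⟨(e (Q 0)).1⟩

theorem result :
    (∀ g : ℕ, 3 ≤ g → Nonempty (X g) ∧ ¬ NConn 2 (X g)) ∧
    (∃ N : ℤ, {g : ℕ | ¬ NConn N (X g)}.Infinite) ∧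
    ¬ ∃ n : ℕ → ℤ, Filter.Tendsto n Filter.atTop Filter.atTop ∧
      ∀ g : ℕ, 2 ≤ g → NConn (n g) (X g) := by
  refine ⟨fun g hg => ⟨nonempty_X g hg, not_nconn hg⟩, ⟨2, ?_⟩, ?_⟩
  · refine Set.infinite_of_forall_exists_gt fun a => ⟨a + 3, ?_, by omega⟩
    exact not_nconn (g := a + 3) (by omega)
  · rintro ⟨n, hn, h⟩
    obtain ⟨g, hg⟩ := ((hn.eventually (Filter.eventually_ge_atTop 2)).and
      (Filter.eventually_ge_atTop 3)).exists
    exact not_nconn hg.2 (nconn_mono hg.1 (h g (by omega)))

end Pool.Agent.Results.MP_45233e_ag.NotTwoConnected
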